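import Pool.Agent.helper52.HY.Spec

/-!
# Project ed: (frozen S05829, density of hyperbolicity of `z^n + c`): the counting block (power saving of helper68)

Papers: /team-store/MP_af9036_ENDGAME_helper68.md (sections 0-2), SHORTEND_helper94 (section 1), the definitions `UD, T, S, hd, UN, RM, VV, SG, Orb, fz` are those of Pool/Agent/helper52/HY/Spec.lean.
`1 - ‖T u v‖` is about `2 e^(-d(u,v))`.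

PART 1 (this file): everything which does not need the tower of Riemann maps. A CHART is a univalent `G : UD → UD` (the Riemann map of a tube `W ⊆ V` centred at a point of the orbit, seen in the coordinate `φ` of `V`); `hd G 0` is the ratio
`conf(W, point)/conf(V, point)` of conformal radii. `PhV` is the derivative of `f^i` along the orbit measured in `V`.

RULES. File `Pool/Agent/<seat>/ED/XX.lean`: `import Pool.Agent.helper52.ED.Spec`, `set_option autoImplicit false`, `open Complex Metric Set Filter Topology MeasureTheory`,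
`open Pool.Agent.helper98.ILF Pool.Agent.helper16.Multibrot HY`, `noncomputable section`, `namespace ED`, `theorem XX (h : YY_stmt) ... : XX_stmt`. Hypotheses may be: other statements of this file (no circles), all statements of HY/Spec.lean
(e.g. `HY.MOB_stmt`, `HY.HDI_stmt`, `HY.CLB_stmt`, `HY.COV_stmt`), and the proved tools `V3.KO0_stmt`, `V3.KO1_stmt`, `V3.KO3_stmt`, `V3.TUL_stmt`, `V3.TMO_stmt`, `BR.BRG_stmt`, `WP.WPU_stmt` (W+), `V3W.FW_stmt` (W). Auxiliary lemmas are prefixed `XX_`. No `sorry`, no double quotes in comments.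
-/

set_option autoImplicit false

open Complex Metric Set Filter Topology MeasureTheory
open Pool.Agent.helper98.ILF Pool.Agent.helper16.Multibrot HY

noncomputable section

namespace ED

/-! ## Definitions -/

/-- CLEAN BALLS with constant `M`: the conclusion of `HY.CLB_stmt` for the numbers `n, r, M`. -/
def CL (n : ℕ) (r : ℝ) (M : ℕ) : Prop := ∀ c ∈ multibrot n, Disjoint (ball c r) (hyperbolic n) →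
  ∀ (V : Set ℂ) (φ ψ : ℂ → ℂ) (b : ℂ), SG n c V φ ψ b → ∀ (y : ℕ → ℂ) (j : ℕ), Orb n c φ M y j → ∀ i ≤ j,
  ∃ H : ℂ → ℂ, UN H ∧ H 0 = y i ∧ (∀ x ∈ UD, (fz n c)^[j - i] (φ (H x)) = φ (S (y j) (x / 16))) ∧
    ∀ x ∈ UD, ‖T (y i) (H x)‖ ≤ 1 / 4

/-- the derivative of `f^i` at the point `φ (y 0)`, divided by the conformal radius of `V` at `φ (y i)`. -/
def PhV (n : ℕ) (c : ℂ) (φ : ℂ → ℂ) (y : ℕ → ℂ) (i : ℕ) : ℝ :=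
  ‖deriv ((fz n c)^[i]) (φ (y 0))‖ / (‖deriv φ (y i)‖ * (1 - ‖y i‖ ^ 2))

/-- CLM: existence of `M`. Uses `HY.CLB_stmt`. PROOF. `M := max M₀ 1`; an `Orb` for `M` is an `Orb` for `M₀` (`(1/2)^M ≤ (1/2)^M₀`). Every `M' ≥ M` works as well. -/
def CLM_stmt : Prop := ∀ n : ℕ, 2 ≤ n → ∀ r > (0 : ℝ), ∃ M : ℕ, 1 ≤ M ∧ ∀ M' ≥ M, CL n r M'

/-! ## The disc -/

/-- SPK: Schwarz-Pick for the pseudo hyperbolic distance, and the triangle inequality. Uses `HY.MOB_stmt`.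
PROOF. (1) Schwarz lemma for `T (g x) ∘ g ∘ S x`. (2) `1 - ‖T x y‖ ≤ 1 - ‖T x y‖² = (1-‖x‖²)(1-‖y‖²)/‖1 - conj x y‖² ≤ 4 (1-‖x‖)(1-‖y‖)/(1-‖x‖)²`. (3) `‖y‖ ≤ (‖x‖ + τ)/(1 + ‖x‖τ)` with `τ = ‖T x y‖` (`y = S x (T x y)`, `‖S x u‖ ≤ (‖x‖+‖u‖)/(1+‖x‖‖u‖)`), so `1 - ‖y‖ ≥ (1-‖x‖)(1-τ)/2`.
(4) triangle inequality `‖T x z‖ ≤ (‖T x y‖ + ‖T y z‖)/(1 + ..) ≤ ‖T x y‖ + ‖T y z‖`. (5) symmetric. (6) `hd H x ≤ 1/(1 - ‖x‖²)`. -/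
def SPK_stmt : Prop :=
  (∀ g : ℂ → ℂ, DifferentiableOn ℂ g UD → MapsTo g UD UD → ∀ x ∈ UD, ∀ y ∈ UD, ‖T (g x) (g y)‖ ≤ ‖T x y‖) ∧
  (∀ x ∈ UD, ∀ y ∈ UD, 1 - ‖T x y‖ ≤ 4 * (1 - ‖y‖) / (1 - ‖x‖)) ∧
  (∀ x ∈ UD, ∀ y ∈ UD, (1 - ‖x‖) * (1 - ‖T x y‖) / 2 ≤ 1 - ‖y‖) ∧
  (∀ x ∈ UD, ∀ y ∈ UD, ∀ z ∈ UD, ‖T x z‖ ≤ ‖T x y‖ + ‖T y z‖) ∧
  (∀ x ∈ UD, ∀ y ∈ UD, ‖T x y‖ = ‖T y x‖ ∧ ‖T x y‖ < 1) ∧
  (∀ g : ℂ → ℂ, DifferentiableOn ℂ g UD → MapsTo g UD UD → ∀ x ∈ UD, hd g x ≤ 1 / (1 - ‖x‖ ^ 2))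

/-- VCL: cells of the disc for the pseudo hyperbolic distance.
PROOF. Cells: squares of side `η w s/4` which meet `ball 0 1`: at most `(C/(η w s))²` of them. In one cell `‖u - v‖ ≤ η w s/2` and `‖1 - conj u v‖ ≥ 1 - ‖u‖ ≥ s`, so `‖T u v‖ ≤ η w`. `Finset.exists_lt_card_fiber_of_mul_lt_card_of_maps_to`. -/
def VCL_stmt : Prop := ∀ η : ℝ, 0 < η → ∃ C : ℕ, ∀ (w s : ℝ) (ι : Finset ℕ) (v : ℕ → ℂ) (L : ℕ), 0 < w → w ≤ 1 → 0 < s → s ≤ 1 →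
  (∀ i ∈ ι, v i ∈ UD ∧ s ≤ 1 - ‖v i‖) → (C : ℝ) / (w * s) ^ 2 * L < ι.card →
  ∃ ι' ⊆ ι, L < ι'.card ∧ ∀ i ∈ ι', ∀ l ∈ ι', ‖T (v i) (v l)‖ ≤ η * w

/-- PCK: weak form of the inequality of Pick. Uses `V3.KO0_stmt`, `V3.KO3_stmt`. (helper83)
PROOF. Growth: `‖j z‖ ≤ ‖j' 0‖ (1-‖z‖)^(-E)` (KO3 iterated). So `‖j z‖ = 1/2` implies `1 - ‖z‖ ≤ κ := (2‖j' 0‖)^(1/E)`. `N = ⌊c/κ⌋` with `‖z‖^N ≥ 1/2` whenever `1-‖z‖ ≤ κ`: maximum principle for `j z/z^N` on `{‖j z‖ > 1/2}`: `‖j z‖ ≤ ‖z‖^N` there. -/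
def PCK_stmt : Prop := ∃ (C : ℝ) (p : ℕ), 0 < C ∧ 1 ≤ p ∧ ∀ j : ℂ → ℂ, UN j → j 0 = 0 → ∀ y ∈ UD, 1 / 2 ≤ ‖j y‖ →
  (1 - ‖y‖) ^ p ≤ C * ‖deriv j 0‖ * (1 - ‖j y‖) ^ p

/-- PC2: two point form. Uses PCK, SPK, `HY.MOB_stmt`, `HY.HDI_stmt`.
PROOF. `J = T (j a) ∘ j ∘ S a`: `J 0 = 0`, `‖J' 0‖ = hd j a (1 - ‖a‖²)`, `‖J (T a y)‖ = ‖T (j a) (j y)‖`. -/
def PC2_stmt : Prop := ∃ (C : ℝ) (p : ℕ), 0 < C ∧ 1 ≤ p ∧ ∀ j : ℂ → ℂ, UN j → ∀ a ∈ UD, ∀ y ∈ UD, 1 / 2 ≤ ‖T (j a) (j y)‖ →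
  (1 - ‖T a y‖) ^ p ≤ C * (hd j a * (1 - ‖a‖ ^ 2)) * (1 - ‖T (j a) (j y)‖) ^ p

/-! ## Returns grow -/

/-- RGR: a close return makes the tube larger. Uses `WP.WPU_stmt` (W+), `V3W.FW_stmt` (W), `V3.KO0_stmt`, `V3.KO1_stmt`, `V3.KO3_stmt`, MOB, HDI. (helper76)
PROOF. Suppose `hd G2 0 < (1+η) hd G 0`. `w = φ (G 0)`, `w' = φ (G2 0) = f^m w`, `λ = (f^m)'(w)`. `‖λ‖ ≤ ‖B' 0‖ (hd G2 0/hd G 0)(1 + Cη) ≤ 1 + Cη`. If `‖λ - 1‖ ≥ ε₁`: Rouche: a fixed point of `f^m` near `w` with multiplier of modulus `< 1 + δ`: contradiction to W.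
If `‖λ - 1‖ < ε₁`: `‖B' 0‖ ≥ 1 - C ε₁`, so `B` is injective on a definite ball, and `f^m` is injective on a ball around `w` of radius comparable to the size of the tube, moves `w` little and has derivative near `1`: contradiction to W+. -/
def RGR_stmt : Prop := ∀ n : ℕ, 2 ≤ n → ∀ r > (0 : ℝ), ∃ η > (0 : ℝ), ∀ c ∈ multibrot n, Disjoint (ball c r) (hyperbolic n) →
  ∀ (V : Set ℂ) (φ : ℂ → ℂ), RM V 0 φ → ∀ (G G2 B : ℂ → ℂ) (m : ℕ), 1 ≤ m → UN G → UN G2 → DifferentiableOn ℂ B UD →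
  MapsTo B UD UD → B 0 = 0 → (∀ x ∈ UD, (fz n c)^[m] (φ (G x)) = φ (G2 (B x))) → ‖T (G 0) (G2 0)‖ ≤ η * hd G 0 →
  (1 + η) * hd G 0 ≤ hd G2 0

/-- GEO: numbers which grow geometrically (pure).
PROOF. List the elements of `ι` increasingly; `κ` grows by the factor `1 + η` at each step, so `(1+η)^(card - 1) ≤ B/A`; `(1+η)^k ≥ 1 + kη`... use `Real.log`: `card ≤ 1 + log(B/A)/log(1+η)`, and `log(1+η) ≥ η/2` for `η ≤ 1`. -/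
def GEO_stmt : Prop := ∀ (η A B : ℝ) (ι : Finset ℕ) (κ : ℕ → ℝ), 0 < η → η ≤ 1 → 0 < A → A ≤ B →
  (∀ i ∈ ι, A ≤ κ i ∧ κ i ≤ B) → (∀ i ∈ ι, ∀ k ∈ ι, i < k → (1 + η) * κ i ≤ κ k) →
  (ι.card : ℝ) ≤ 1 + 2 * Real.log (B / A) / η

/-- VT: the number of visits with a fat tube (any orbit, e.g. the orbit of `0`). Uses RGR, VCL, GEO, SPK.
PROOF. `η ≤ 1` from RGR, `C₀` from VCL for `η`. If `card > C/(w s)³` then by VCL a subset with more than `L` elements, `L = ⌈1 + 2 log(1/w)/η⌉ ≤ C'/w`, and mutual distances `≤ η w ≤ η hd (G i) 0`: RGR: `(1+η) hd (G i) 0 ≤ hd (G k) 0` for `i < k` in the subset; `w ≤ hd (G i) 0 ≤ 1` (SPK (6)); GEO. -/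
def VT_stmt : Prop := ∀ n : ℕ, 2 ≤ n → ∀ r > (0 : ℝ), ∃ C > (0 : ℝ), ∀ c ∈ multibrot n, Disjoint (ball c r) (hyperbolic n) →
  ∀ (V : Set ℂ) (φ : ℂ → ℂ), RM V 0 φ → ∀ (ι : Finset ℕ) (G : ℕ → ℂ → ℂ) (w s : ℝ), 0 < w → w ≤ 1 → 0 < s → s ≤ 1 →
  (∀ i ∈ ι, UN (G i) ∧ w ≤ hd (G i) 0 ∧ s ≤ 1 - ‖G i 0‖) →
  (∀ i ∈ ι, ∀ k ∈ ι, i < k → ∃ B : ℂ → ℂ, DifferentiableOn ℂ B UD ∧ MapsTo B UD UD ∧ B 0 = 0 ∧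
    ∀ x ∈ UD, (fz n c)^[k - i] (φ (G i x)) = φ (G k (B x))) → (ι.card : ℝ) ≤ C / (w * s) ^ 3

/-! ## The count along an orbit which has not yet approached `0` -/

/-- PHP: positivity and the derivative of the clean branches. Uses `V3.KO0_stmt`, HY.MOB.
PROOF. `1 ≤ M`: `‖y i‖ ≥ 1/2` for `i < j`, so `φ (y i) ≠ 0 = φ 0` and `f'(φ (y i)) = n (φ (y i))^(n-1) ≠ 0`; `f^i (φ (y 0)) = φ (y i)` (`Orb.stp`); chain rule `(f^j)'(φ (y 0)) = (f^(j-i))'(φ (y i)) (f^i)'(φ (y 0))`. Differentiate the relation for `H` at `0`: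
`(f^(j-i))'(φ (y i)) φ'(y i) H' 0 = φ'(y j)(1 - ‖y j‖²)/16`. -/
def PHP_stmt : Prop := ∀ (n : ℕ) (c : ℂ) (V : Set ℂ) (φ ψ : ℂ → ℂ) (b : ℂ) (M : ℕ) (y : ℕ → ℂ) (t : ℕ), SG n c V φ ψ b → 1 ≤ M →
  Orb n c φ M y t → (∀ i ≤ t, 0 < PhV n c φ y i ∧ (fz n c)^[i] (φ (y 0)) = φ (y i) ∧ deriv ((fz n c)^[i]) (φ (y 0)) ≠ 0) ∧
  ∀ i j, i ≤ j → j ≤ t → ∀ H : ℂ → ℂ, UN H → H 0 = y i → (∀ x ∈ UD, (fz n c)^[j - i] (φ (H x)) = φ (S (y j) (x / 16))) →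
    hd H 0 = PhV n c φ y i / (16 * PhV n c φ y j)

/-- MON: `PhV` is almost monotone. Uses PHP, SPK.
PROOF. CL gives `H` for `i ≤ j` (`Orb` up to `j`); `hd H 0 ≤ 1` (SPK (6) at `0`) and PHP. -/
def MON_stmt : Prop := ∀ (n : ℕ) (r : ℝ) (M : ℕ), 2 ≤ n → 0 < r → 1 ≤ M → CL n r M → ∀ c ∈ multibrot n,
  Disjoint (ball c r) (hyperbolic n) → ∀ (V : Set ℂ) (φ ψ : ℂ → ℂ) (b : ℂ), SG n c V φ ψ b → ∀ (y : ℕ → ℂ) (t : ℕ),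
  Orb n c φ M y t → ∀ i j, i ≤ j → j ≤ t → PhV n c φ y i ≤ 16 * PhV n c φ y j

/-- CNT: the basic count: visits in one annulus and one dyadic class of `PhV`. Uses RGR, PHP, GEO, `HY.COV_stmt`, HY.MOB, HY.HDI.
PROOF. `η ≤ 1` from RGR, `N₂` from COV for `η/64`, `N₁ = ⌈1 + 2 log 2/η⌉`. If `card > N₂ 2^m N₁`: a subset `ι'` with more than `N₁` elements and mutual distances `‖T (y i) (y l)‖ ≤ η/64`. For `i < k` in `ι'`: CL with `j = k`: `H`, `hd H 0 = PhV i/(16 PhV k) ≥ 1/32` (PHP). RGR with `G = H`, `G2 x = S (y k) (x/16)`, `B = id`, `m = k - i` (HDI (3): `UN`, `hd G2 0 = 1/16`):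
`‖T (y i) (y k)‖ ≤ η/64 ≤ η hd H 0`, so `(1+η) PhV i ≤ PhV k`. GEO on `[A, 2A]`: contradiction. -/
def CNT_stmt : Prop := ∀ (n : ℕ) (r : ℝ) (M : ℕ), 2 ≤ n → 0 < r → 1 ≤ M → CL n r M → ∃ N : ℕ, ∀ c ∈ multibrot n,
  Disjoint (ball c r) (hyperbolic n) → ∀ (V : Set ℂ) (φ ψ : ℂ → ℂ) (b : ℂ), SG n c V φ ψ b → ∀ (y : ℕ → ℂ) (t : ℕ),
  Orb n c φ M y t → ∀ (m : ℕ) (A : ℝ) (ι : Finset ℕ), 0 < A →
  (∀ i ∈ ι, i ≤ t ∧ (1 / 2 : ℝ) ^ (m + 1) ≤ 1 - ‖y i‖ ∧ 1 - ‖y i‖ ≤ (1 / 2 : ℝ) ^ m ∧ A ≤ PhV n c φ y i ∧ PhV n c φ y i ≤ 2 * A) →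
  ι.card ≤ N * 2 ^ m

/-- CTK: the count: visits with `1 - ‖y i‖ ≥ s` and `PhV i ≥ κ PhV t`. Uses CNT, MON.
PROOF. `κ PhV t ≤ PhV i ≤ 16 PhV t` (MON): at most `5 + log₂(1/κ)` dyadic classes `A = κ PhV t 2^l`. `(1/2)^(m+1) ≤ 1 - ‖y i‖ ≤ (1/2)^m` for some `m ≥ 0` with `2^m ≤ 1/s` (`m` maximal with `1 - ‖y i‖ ≤ 2^(-m)`). Sum: `∑_{2^m ≤ 1/s} N 2^m ≤ 2N/s`. -/
def CTK_stmt : Prop := ∀ (n : ℕ) (r : ℝ) (M : ℕ), 2 ≤ n → 0 < r → 1 ≤ M → CL n r M → ∃ C > (0 : ℝ), ∀ c ∈ multibrot n,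
  Disjoint (ball c r) (hyperbolic n) → ∀ (V : Set ℂ) (φ ψ : ℂ → ℂ) (b : ℂ), SG n c V φ ψ b → ∀ (y : ℕ → ℂ) (t : ℕ),
  Orb n c φ M y t → ∀ (s κ : ℝ) (ι : Finset ℕ), 0 < s → s ≤ 1 → 0 < κ → κ ≤ 1 →
  (∀ i ∈ ι, i < t ∧ s ≤ 1 - ‖y i‖ ∧ κ * PhV n c φ y t ≤ PhV n c φ y i) → (ι.card : ℝ) ≤ C / s * (1 + Real.log (1 / κ))

/-- KLO: the derivative of the orbit and the tube. `W = f^(-l)(V)`, `l = t - i`, `w` its Riemann map, `φ (y i) = w a`. Uses PC2, PHP, SPK, HY.MOB, HY.HDI, `V3.KO0_stmt`.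
PROOF. Schwarz-Pick for `f^l : W → V` (charts `w ∘ S a` and `φ ∘ S (y t)`; `φ⁻¹ ∘ f^l ∘ w` is holomorphic `UD → UD`): `‖(f^l)'(φ (y i))‖ ‖w' a‖(1-‖a‖²) ≤ ‖φ'(y t)‖(1-‖y t‖²)`. With `(f^t)' = (f^l)' (f^i)'`: `PhV t κ ≤ PhV i`, `κ = ‖w' a‖(1-‖a‖²)/(‖φ'(y i)‖(1-‖y i‖²)) = hd j a (1-‖a‖²)` for the inclusion `j = φ⁻¹ ∘ w : UD → UD`, `j 0 = 0`, `j a = y i`
(univalent, holomorphic). PC2 for `j`, the points `a` and `0`: `‖T (j a) (j 0)‖ = ‖y i‖ ≥ 1/2`: `(1-‖a‖)^p ≤ C κ (1-‖y i‖)^p`. -/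
def KLO_stmt : Prop := ∃ (C : ℝ) (p : ℕ), 0 < C ∧ 1 ≤ p ∧ ∀ (n : ℕ) (c : ℂ) (V : Set ℂ) (φ ψ : ℂ → ℂ) (b : ℂ) (M : ℕ) (y : ℕ → ℂ) (t : ℕ),
  SG n c V φ ψ b → 1 ≤ M → Orb n c φ M y t → ∀ i < t, ∀ (W : Set ℂ) (w : ℂ → ℂ) (a : ℂ), RM W 0 w → W ⊆ V →
  (∀ z ∈ W, (fz n c)^[t - i] z ∈ V) → a ∈ UD → w a = φ (y i) →
  (1 - ‖a‖) ^ p * PhV n c φ y t ≤ C * (1 - ‖y i‖) ^ p * PhV n c φ y i ∧ ‖y i‖ ≤ ‖a‖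

end ED
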