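import Pool.Agent.helper52.ED.Spec
import Pool.Agent.helper5.DH.Spec

/-!
# Project ed: PART 2: the power saving `PS` on the tower of Riemann maps (definitions of helper5: `DH.co, Tow, yv, jj, FA, REL, CL, PSP`)

`p` = starting point of the orbit, `t` = first approach of `V_k`, `a_T = yv (k+t-T) p T` (coordinate of `f^T p` in the tube `V_(k+t-T)`), `y_T = yv k p T` (coordinate in `V_k`), `v_T = yv k 0 (t-T)` (the obstacle `f^(t-T) 0`).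

RULES. As in Pool/Agent/helper52/ED/Spec.lean, with `import Pool.Agent.helper52.ED.SpecP` and in addition `open DH (co Tow yv jj FA REL)`. All statements of `ED/Spec.lean`, of `HY/Spec.lean` and of Pool/Agent/helper5/DH/Spec.lean (`DH.COP_stmt`, `DH.BTP_stmt`, `DH.TSG_stmt`, ..) may be used as hypotheses. `ED.CL n r M` and `DH.CL n r M` are the same by `Iff.rfl`.
-/

set_option autoImplicit false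

open Complex Metric Set Filter Topology MeasureTheory
open Pool.Agent.helper98.ILF Pool.Agent.helper16.Multibrot HY
open DH (co Tow yv jj FA REL)

noncomputable section

namespace ED

/-- the chart of the tube `V_(k+q-u)` at the point `f^u p` (`u ≤ q`), seen in `V_k`. -/
def chg (Φ : ℕ → ℂ → ℂ) (n : ℕ) (c : ℂ) (k q : ℕ) (p : ℂ) (u : ℕ) (x : ℂ) : ℂ :=
  jj Φ k (k + q - u) (S (yv Φ n c (k + q - u) p u) x)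

/-- TCH: the charts of the tubes. Uses `DH.COP_stmt`, `DH.BTP_stmt`, `HY.MOB_stmt`, `HY.HDI_stmt`, `HY.VKB_stmt`.
PROOF. `k ≤ k+q-u`, `jj` is `UN` (BTP), `S a` is an automorphism. `B = T (yv (k+q-u') p u') ∘ co (Φ (k+q-u')) ∘ f^(u'-u) ∘ Φ (k+q-u) ∘ S (yv (k+q-u) p u)`: `f^(u'-u)` maps `V_(k+q-u)` into `V_(k+q-u')`. The last two claims: `f^u : V_(k+q) → V_(k+q-u)` in coordinates and SPK (1) (both for the orbits of `p` and of `p'`);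
`hd (chg) 0 = ‖jj'(a)‖ (1-‖a‖²)/(1-‖jj a‖²)`. -/
def TCH_stmt : Prop := ∀ (n : ℕ) (c : ℂ) (Φ : ℕ → ℂ → ℂ) (b : ℕ → ℂ), Tow n c Φ b → ∀ (k q : ℕ) (p : ℂ), p ∈ filled n c →
  (∀ u ≤ q, UN (chg Φ n c k q p u) ∧ chg Φ n c k q p u 0 = yv Φ n c k p u ∧
    hd (chg Φ n c k q p u) 0 = hd (jj Φ k (k + q - u)) (yv Φ n c (k + q - u) p u) * (1 - ‖yv Φ n c (k + q - u) p u‖ ^ 2)) ∧
  (∀ u u' : ℕ, u < u' → u' ≤ q → ∃ B : ℂ → ℂ, DifferentiableOn ℂ B UD ∧ MapsTo B UD UD ∧ B 0 = 0 ∧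
    ∀ x ∈ UD, (fz n c)^[u' - u] (Φ k (chg Φ n c k q p u x)) = Φ k (chg Φ n c k q p u' (B x))) ∧
  (∀ p' ∈ filled n c, ∀ (i u : ℕ), i + u ≤ q → ‖T (yv Φ n c (k + q - (i + u)) p (i + u)) (yv Φ n c (k + q - (i + u)) p' (i + u))‖ ≤
    ‖T (yv Φ n c (k + q - i) p i) (yv Φ n c (k + q - i) p' i)‖)

/-- ORB: the orbit of a first approach. Uses `DH.BTP_stmt`, `DH.TSG_stmt`, `HY.VKB_stmt`. PROOF. `Φ k (yv k p (i+1)) = f^(i+1) p = fz n c (f^i p)`. -/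
def ORB_stmt : Prop := ∀ (n : ℕ) (c : ℂ) (Φ : ℕ → ℂ → ℂ) (b : ℕ → ℂ) (M k : ℕ) (p : ℂ) (t : ℕ), FA n c Φ b M k p t →
  SG n c (VV n c k) (Φ k) (Φ (k + 1)) (b k) ∧ Orb n c (Φ k) M (yv Φ n c k p) t

/-- TLO: the tube comparison on the tower. Uses KLO, ORB, `DH.BTP_stmt`, `HY.VKB_stmt`.
PROOF. KLO with `W = VV n c (k+t-i)`, `w = Φ (k+t-i)`, `a = yv (k+t-i) p i`. -/
def TLO_stmt : Prop := ∃ (C : ℝ) (e : ℕ), 0 < C ∧ 1 ≤ e ∧ ∀ (n : ℕ) (c : ℂ) (Φ : ℕ → ℂ → ℂ) (b : ℕ → ℂ) (M k : ℕ) (p : ℂ) (t : ℕ),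
  1 ≤ M → FA n c Φ b M k p t → ∀ i < t,
  (1 - ‖yv Φ n c (k + t - i) p i‖) ^ e * PhV n c (Φ k) (yv Φ n c k p) t ≤ C * PhV n c (Φ k) (yv Φ n c k p) i ∧
  ‖yv Φ n c k p i‖ ≤ ‖yv Φ n c (k + t - i) p i‖

/-- CTG: the number of all obstacles with `1 - ‖a_T‖ ≥ g`. Uses CTK, TLO, ORB, PHP.
PROOF. `g ≤ 1 - ‖a_T‖ ≤ 1 - ‖y_T‖` and `PhV T ≥ (g^e/C) PhV t` (TLO). CTK with `s = g`, `κ = min 1 (g^e/C)`: `log(1/κ) ≤ C' (1 + log(1/g))`. -/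
def CTG_stmt : Prop := ∀ (n : ℕ) (r : ℝ) (M : ℕ), 2 ≤ n → 0 < r → 1 ≤ M → CL n r M → ∃ C > (0 : ℝ), ∀ c ∈ multibrot n,
  Disjoint (ball c r) (hyperbolic n) → ∀ (Φ : ℕ → ℂ → ℂ) (b : ℕ → ℂ) (k : ℕ) (p : ℂ) (t : ℕ), FA n c Φ b M k p t →
  ∀ g : ℝ, 0 < g → g ≤ 1 →
  ((((Finset.range t).filter (fun i => g ≤ 1 - ‖yv Φ n c (k + t - i) p i‖)).card : ℕ) : ℝ) ≤ C / g * (1 + Real.log (1 / g))

/-- PSS: shallow positions (case (i) of the power saving). Uses CTK, TLO, MON, ORB, PHP.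
PROOF. For `τ` with `T' < τ < t`, `PhV T' ≤ 16 PhV τ` (MON) and `PhV T' ≥ (g^e/C) PhV t` (TLO, `g ≤ 1 - ‖a_T'‖`): `κ = min 1 (g^e/(16 C))`; CTK with this `κ` and `s = σ`. `log(1/κ) ≤ C'(1 + log(1/g))`. -/
def PSS_stmt : Prop := ∀ (n : ℕ) (r : ℝ) (M : ℕ), 2 ≤ n → 0 < r → 1 ≤ M → CL n r M → ∃ C > (0 : ℝ), ∀ c ∈ multibrot n,
  Disjoint (ball c r) (hyperbolic n) → ∀ (Φ : ℕ → ℂ → ℂ) (b : ℕ → ℂ) (k : ℕ) (p : ℂ) (t : ℕ), FA n c Φ b M k p t →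
  ∀ (g σ : ℝ) (T' : ℕ), 0 < g → g ≤ 1 → 0 < σ → σ ≤ 1 → T' < t → g ≤ 1 - ‖yv Φ n c (k + t - T') p T'‖ →
  ((((Finset.range t).filter (fun i => T' < i ∧ σ ≤ 1 - ‖yv Φ n c k p i‖)).card : ℕ) : ℝ) ≤ C / σ * (1 + Real.log (1 / g))

/-- PSA: a deep position forces a fat tube of the critical orbit (case (ii)). Uses PC2, SPK, TCH, ORB, `DH.BTP_stmt`.
PROOF. `T' < T < t`, `u = t - T`, `τ = T' + u`, `q = t - T'`, so `k + q - u = k + (T - T')`. TCH (3) with `i = 0`, the points `f^T' p` and `0` (both in `filled`; `yv (k+q) (f^T' p) 0 = yv (k+q) p T'`, `yv (k+q) 0 0 = 0`): `‖T X Z‖ ≤ ‖yv (k+q) p T'‖ ≤ 1 - g`, `X = yv (k+T-T') p τ`, `Z = yv (k+T-T') 0 u`.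
`j = jj k (k+T-T')`: `j X = yv k p τ`, `j Z = yv k 0 u` (BTP). SPK (2): `1 - ‖T (j Z) (j X)‖ ≤ 4 (1-‖j X‖)/(1-‖j Z‖) ≤ 4σ/s ≤ 1/2`. PC2 at `a = Z`: `g^e ≤ (1 - ‖T Z X‖)^e ≤ C hd j Z (1-‖Z‖²) (4σ/s)^e`, and `hd j Z (1-‖Z‖²) = hd (chg k q 0 u) 0` (TCH). -/
def PSA_stmt : Prop := ∃ (C : ℝ) (e : ℕ), 0 < C ∧ 1 ≤ e ∧ ∀ (n : ℕ) (c : ℂ) (Φ : ℕ → ℂ → ℂ) (b : ℕ → ℂ) (M k : ℕ) (p : ℂ) (t : ℕ),
  FA n c Φ b M k p t → ∀ (T' T₁ : ℕ) (g s σ : ℝ), T' < T₁ → T₁ < t → 0 < g → 0 < s → 0 < σ → 8 * σ ≤ s →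
  g ≤ 1 - ‖yv Φ n c (k + t - T') p T'‖ → s ≤ 1 - ‖yv Φ n c k 0 (t - T₁)‖ → 1 - ‖yv Φ n c k p (T' + (t - T₁))‖ ≤ σ →
  (g * s / (4 * σ)) ^ e ≤ C * hd (chg Φ n c k (t - T') 0 (t - T₁)) 0

/-- PSV: the critical orbit has few fat tubes. Uses VT, TCH, `HY.VKB_stmt` (`0 ∈ filled n c`).
PROOF. VT for the orbit of `0`, `G u = chg k q 0 u`, `ι` = the finite set of the numbers `u ≤ q` (`ι ⊆ range (q+1)`). -/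
def PSV_stmt : Prop := ∀ (n : ℕ) (r : ℝ), 2 ≤ n → 0 < r → ∃ C > (0 : ℝ), ∀ c ∈ multibrot n, Disjoint (ball c r) (hyperbolic n) →
  ∀ (Φ : ℕ → ℂ → ℂ) (b : ℕ → ℂ), Tow n c Φ b → ∀ (k q : ℕ) (w s : ℝ), 0 < w → w ≤ 1 → 0 < s → s ≤ 1 →
  ((((Finset.range (q + 1)).filter (fun u => w ≤ hd (chg Φ n c k q 0 u) 0 ∧ s ≤ 1 - ‖yv Φ n c k 0 u‖)).card : ℕ) : ℝ) ≤
    C / (w * s) ^ 3

/-- PS: THE POWER SAVING. Uses PSS, PSA, PSV.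
PROOF. `J` = the set, `T' = min J`. For `T ∈ J`, `T > T'`: `u = t - T`, `τ = T' + u ∈ (T', t)`; `T ↦ τ` and `T ↦ u` are injective. Let `θ₁ = 1/(6e)` (`e` from PSA), `σ = (s/8) g^(1-θ₁)` (real power). (i) `1 - ‖yv k p τ‖ ≥ σ`: at most `C/σ (1 + log(1/g)) = 8C g^(θ₁-1) s^(-1) (1 + log(1/g)) ≤ C' g^(θ₁/2-1) s^(-1)` (PSS).
(ii) otherwise PSA: `w ≤ hd (chg k (t-T') 0 u) 0` with `w = min 1 ((g s/(4σ))^e/C) ≥ c g^(θ₁ e)` (`g s/(4σ) = 2 g^θ₁`), so `w ≥ c g^(1/6)`: at most `C/(w s)³ ≤ C'' g^(-1/2) s^(-3)` (PSV, `q = t - T'`). `θ = max (1 - θ₁/2) (1/2) < 1`, `E = 3`, and `+ 1` for `T'`. -/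
def PS_stmt : Prop := ∀ (n : ℕ) (r : ℝ) (M : ℕ), 2 ≤ n → 0 < r → 1 ≤ M → CL n r M → ∃ (C θ : ℝ) (E : ℕ), 0 < C ∧ 0 ≤ θ ∧ θ < 1 ∧
  ∀ c ∈ multibrot n, Disjoint (ball c r) (hyperbolic n) →
  ∀ (Φ : ℕ → ℂ → ℂ) (b : ℕ → ℂ) (k : ℕ) (p : ℂ) (t : ℕ), FA n c Φ b M k p t → ∀ g s : ℝ, 0 < g → g ≤ 1 → 0 < s → s ≤ 1 →
  ((((Finset.range t).filter (fun i => g ≤ 1 - ‖yv Φ n c (k + t - i) p i‖ ∧ s ≤ 1 - ‖yv Φ n c k 0 (t - i)‖)).card : ℕ) : ℝ) ≤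
    C * g ^ (-θ) * (1 / s) ^ E

/-- PSR: helper5's form. Uses PS.
PROOF. `s = (1/2)^(M+2)`; `‖v‖ < 1 - s` implies `s ≤ 1 - ‖v‖`. -/
def PSR_stmt : Prop := ∀ (n : ℕ) (r : ℝ) (M : ℕ), 2 ≤ n → 0 < r → 1 ≤ M → CL n r M → ∃ C γ : ℝ, 0 ≤ C ∧ 0 ≤ γ ∧ γ < 1 ∧ DH.PSP n r M C γ

end ED
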