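import Pool.Agent.helper52.ED.Spec

set_option autoImplicit false

open Complex Metric Set Filter Topology MeasureTheory
open Pool.Agent.helper98.ILF Pool.Agent.helper16.Multibrot HY

noncomputable section

namespace ED

theorem CTK (hCNT : CNT_stmt) (hMON : MON_stmt) (hPHP : PHP_stmt) : CTK_stmt := by
  intro n r M hn hr hM hCL
  obtain ⟨N, hN⟩ := hCNT n r M hn hr hM hCL
  refine ⟨10 * N + 1, by positivity, ?_⟩
  intro c hc hdis V φ ψ b hSG y t hOrb s κ ι hs hs1 hκ hκ1 hι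
  have hcount := hN c hc hdis V φ ψ b hSG y t hOrb
  have hmon := hMON n r M hn hr hM hCL c hc hdis V φ ψ b hSG y t hOrb
  have hphp := (hPHP n c V φ ψ b M y t hSG hM hOrb).1
  have hPt : 0 < PhV n c φ y t := (hphp t le_rfl).1
  -- number of scales
  obtain ⟨mm, hmm1, hmm2⟩ := exists_nat_pow_near (x := 1 / s) (y := (2 : ℝ)) (by
    rw [le_div_iff₀ hs]; linarith) (by norm_num)
  set L : ℕ := ⌊Real.log (16 / κ) / Real.log 2⌋₊ with hL
  have hlog2 : 0 < Real.log 2 := Real.log_pos (by norm_num)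
  have hlog2' : (1 / 2 : ℝ) < Real.log 2 := by
    have := Real.log_two_gt_d9; linarith
  have h16 : (1 : ℝ) ≤ 16 / κ := by rw [le_div_iff₀ hκ]; linarith
  have hlog16 : 0 ≤ Real.log (16 / κ) := Real.log_nonneg h16
  set P : ℕ × ℕ → Finset ℕ := fun q => ι.filter (fun i => (1 / 2 : ℝ) ^ (q.1 + 1) ≤ 1 - ‖y i‖ ∧
    1 - ‖y i‖ ≤ (1 / 2 : ℝ) ^ q.1 ∧ κ * PhV n c φ y t * 2 ^ q.2 ≤ PhV n c φ y i ∧
    PhV n c φ y i ≤ 2 * (κ * PhV n c φ y t * 2 ^ q.2)) with hP
  have hPcard : ∀ q, (P q).card ≤ N * 2 ^ q.1 := by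
    intro q
    apply hcount q.1 (κ * PhV n c φ y t * 2 ^ q.2) (P q) (by positivity)
    intro i hi
    rw [hP, Finset.mem_filter] at hi
    obtain ⟨hi1, h1, h2, h3, h4⟩ := hi
    exact ⟨(hι i hi1).1.le, h1, h2, h3, h4⟩
  have hsub : ι ⊆ (Finset.range (mm + 1) ×ˢ Finset.range (L + 1)).biUnion P := by
    intro i hi
    obtain ⟨hit, his, hik⟩ := hι i hi
    have hyUD : y i ∈ UD := hOrb.mem i hit.le
    have hy1 : ‖y i‖ < 1 := by simpa [UD] using hyUD
    obtain ⟨m, hm1, hm2⟩ := exists_nat_pow_near_of_lt_one (x := 1 - ‖y i‖) (y := (1 / 2 : ℝ)) (by linarith)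
      (by linarith [norm_nonneg (y i)]) (by norm_num) (by norm_num)
    have hR1 : 1 ≤ PhV n c φ y i / (κ * PhV n c φ y t) := by
      rw [le_div_iff₀ (by positivity)]; linarith
    obtain ⟨l, hl1, hl2⟩ := exists_nat_pow_near (x := PhV n c φ y i / (κ * PhV n c φ y t)) (y := (2 : ℝ)) hR1 (by norm_num)
    have hκP : 0 < κ * PhV n c φ y t := by positivity
    rw [Finset.mem_biUnion]
    refine ⟨(m, l), ?_, ?_⟩
    · rw [Finset.mem_product, Finset.mem_range, Finset.mem_range]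
      constructor
      · -- 2^m ≤ 1/s < 2^(mm+1)
        have h1 : s ≤ (1 / 2 : ℝ) ^ m := le_trans his hm2
        have h2 : (2 : ℝ) ^ m ≤ 1 / s := by
          rw [le_div_iff₀ hs]
          have h3 : (2 : ℝ) ^ m * (1 / 2 : ℝ) ^ m = 1 := by
            rw [← mul_pow]; norm_num
          calc (2 : ℝ) ^ m * s ≤ (2 : ℝ) ^ m * (1 / 2 : ℝ) ^ m := by gcongr
            _ = 1 := h3
        have h3 : (2 : ℝ) ^ m < 2 ^ (mm + 1) := lt_of_le_of_lt h2 hmm2
        exact (pow_lt_pow_iff_right₀ (by norm_num : (1 : ℝ) < 2)).mp h3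
      · have h1 : (2 : ℝ) ^ l ≤ 16 / κ := by
          refine le_trans hl1 ?_
          rw [div_le_div_iff₀ hκP hκ]
          have := hmon i t hit.le le_rfl
          nlinarith
        have h2 : (l : ℝ) * Real.log 2 ≤ Real.log (16 / κ) := by
          rw [← Real.log_pow]
          exact Real.log_le_log (by positivity) h1
        have h3 : (l : ℝ) ≤ Real.log (16 / κ) / Real.log 2 := by
          rw [le_div_iff₀ hlog2]; exact h2
        exact Nat.lt_succ_of_le (Nat.le_floor h3)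
    · show i ∈ P (m, l)
      rw [hP, Finset.mem_filter]
      refine ⟨hi, hm1.le, hm2, ?_, ?_⟩
      · show κ * PhV n c φ y t * 2 ^ l ≤ PhV n c φ y i
        rw [le_div_iff₀ hκP] at hl1
        linarith
      · show PhV n c φ y i ≤ 2 * (κ * PhV n c φ y t * 2 ^ l)
        rw [div_lt_iff₀ hκP, pow_succ] at hl2
        linarith
  have hcard : ι.card ≤ ∑ q ∈ Finset.range (mm + 1) ×ˢ Finset.range (L + 1), N * 2 ^ q.1 :=
    le_trans (Finset.card_le_card hsub) (le_trans Finset.card_biUnion_le (Finset.sum_le_sum (fun q _ => hPcard q)))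
  have hsum : ∑ q ∈ Finset.range (mm + 1) ×ˢ Finset.range (L + 1), N * 2 ^ q.1 ≤ (L + 1) * (N * 2 ^ (mm + 1)) := by
    rw [Finset.sum_product]
    simp only [Finset.sum_const, Finset.card_range, smul_eq_mul]
    rw [← Finset.mul_sum, ← Finset.mul_sum]
    have : ∑ i ∈ Finset.range (mm + 1), 2 ^ i ≤ 2 ^ (mm + 1) := by
      have h := Nat.geomSum_eq (m := 2) le_rfl (mm + 1)
      rw [h]; simp
    gcongr
  have hreal : (ι.card : ℝ) ≤ ((L : ℝ) + 1) * (N * 2 ^ (mm + 1)) := by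
    have := le_trans hcard hsum
    exact_mod_cast this
  have hLr : (L : ℝ) ≤ Real.log (16 / κ) / Real.log 2 := Nat.floor_le (by positivity)
  have hlk : 0 ≤ Real.log (1 / κ) := Real.log_nonneg (by rw [le_div_iff₀ hκ]; linarith)
  have hLr2 : (L : ℝ) + 1 ≤ 5 * (1 + Real.log (1 / κ)) := by
    have e1 : Real.log (16 / κ) = 4 * Real.log 2 + Real.log (1 / κ) := by
      rw [show (16 / κ : ℝ) = 2 ^ 4 * (1 / κ) by ring, Real.log_mul (by norm_num) (by positivity), Real.log_pow]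
      norm_num
    have e2 : Real.log (16 / κ) / Real.log 2 ≤ 4 + 2 * Real.log (1 / κ) := by
      rw [div_le_iff₀ hlog2, e1]
      nlinarith
    linarith
  have h2mm : (2 : ℝ) ^ (mm + 1) ≤ 2 / s := by
    rw [pow_succ]
    have : (2 : ℝ) / s = 1 / s * 2 := by ring
    rw [this]
    gcongr
  calc (ι.card : ℝ) ≤ ((L : ℝ) + 1) * (N * 2 ^ (mm + 1)) := hreal
    _ ≤ (5 * (1 + Real.log (1 / κ))) * (N * (2 / s)) := by gcongr
    _ = (10 * N) / s * (1 + Real.log (1 / κ)) := by ring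
    _ ≤ (10 * N + 1) / s * (1 + Real.log (1 / κ)) := by gcongr; linarith

end ED
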