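import Pool.Agent.helper52.HY.All
import Pool.Agent.helper52.ED.Spec
import Pool.Agent.helper52.ED.SpecP
import Pool.Agent.helper12.ED.SPK
import Pool.Agent.helper16.ED.CNT
import Pool.Agent.helper16.ED.CTG
import Pool.Agent.helper20.ED.MON
import Pool.Agent.helper24.ED.ORB
import Pool.Agent.helper40.ED.TCH
import Pool.Agent.helper48.ED.PSS
import Pool.Agent.helper52.ED.CTK
import Pool.Agent.helper56.ED.KLO
import Pool.Agent.helper70.ED.CLM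
import Pool.Agent.helper72.ED.PHP
import Pool.Agent.helper74.ED.GEO
import Pool.Agent.helper74.ED.PS
import Pool.Agent.helper76.ED.RGR
import Pool.Agent.helper79.ED.PSA
import Pool.Agent.helper83.ED.PCK
import Pool.Agent.helper85.ED.PC2
import Pool.Agent.helper93.ED.PSV
import Pool.Agent.helper95.ED.VT
import Pool.Agent.helper96.ED.TLO
import Pool.Agent.helper98.ED.VCL

/-! Assembly of the rows `ed:` (power saving). The rows of part 2 take the coordinate lemmas `COP, BTP, TSG` of project dh: as hypotheses. -/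

theorem ED.CLM_e : ED.CLM_stmt :=
  ED.CLM HY.CLB_y
theorem ED.SPK_e : ED.SPK_stmt :=
  ED.SPK HY.MOB_y
theorem ED.VCL_e : ED.VCL_stmt :=
  ED.VCL 
theorem ED.PCK_e : ED.PCK_stmt :=
  ED.PCK V3A.KO0_v V3A.KO3_v
theorem ED.PC2_e : ED.PC2_stmt :=
  ED.PC2 ED.PCK_e HY.MOB_y HY.HDI_y
theorem ED.RGR_e : ED.RGR_stmt :=
  ED.RGR V3A.FW_v WPT.WPU_w HY.MOB_y HY.HDI_y V3A.KO0_v V3A.KO1_v V3A.KO3_v
theorem ED.GEO_e : ED.GEO_stmt :=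
  ED.GEO 
theorem ED.VT_e : ED.VT_stmt :=
  ED.VT ED.RGR_e ED.VCL_e ED.GEO_e ED.SPK_e
theorem ED.PHP_e : ED.PHP_stmt :=
  ED.PHP V3A.KO0_v HY.MOB_y
theorem ED.MON_e : ED.MON_stmt :=
  ED.MON ED.PHP_e ED.SPK_e
theorem ED.CNT_e : ED.CNT_stmt :=
  ED.CNT ED.RGR_e ED.PHP_e ED.GEO_e HY.COV_y HY.HDI_y
theorem ED.CTK_e : ED.CTK_stmt :=
  ED.CTK ED.CNT_e ED.MON_e ED.PHP_e
theorem ED.KLO_e : ED.KLO_stmt :=
  ED.KLO ED.PC2_e ED.SPK_e V3A.KO0_v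
theorem ED.TCH_e (hCOP : DH.COP_stmt) (hBTP : DH.BTP_stmt) (hTSG : DH.TSG_stmt) : ED.TCH_stmt :=
  ED.TCH hCOP hBTP HY.MOB_y ED.SPK_e
theorem ED.ORB_e (hCOP : DH.COP_stmt) (hBTP : DH.BTP_stmt) (hTSG : DH.TSG_stmt) : ED.ORB_stmt :=
  ED.ORB hBTP hTSG
theorem ED.TLO_e (hCOP : DH.COP_stmt) (hBTP : DH.BTP_stmt) (hTSG : DH.TSG_stmt) : ED.TLO_stmt :=
  ED.TLO ED.KLO_e (ED.ORB_e hCOP hBTP hTSG) hBTP HY.VKB_y
theorem ED.CTG_e (hCOP : DH.COP_stmt) (hBTP : DH.BTP_stmt) (hTSG : DH.TSG_stmt) : ED.CTG_stmt :=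
  ED.CTG ED.CTK_e (ED.TLO_e hCOP hBTP hTSG) (ED.ORB_e hCOP hBTP hTSG) ED.PHP_e
theorem ED.PSS_e (hCOP : DH.COP_stmt) (hBTP : DH.BTP_stmt) (hTSG : DH.TSG_stmt) : ED.PSS_stmt :=
  ED.PSS ED.CTK_e (ED.TLO_e hCOP hBTP hTSG) ED.MON_e (ED.ORB_e hCOP hBTP hTSG) ED.PHP_e
theorem ED.PSA_e (hCOP : DH.COP_stmt) (hBTP : DH.BTP_stmt) (hTSG : DH.TSG_stmt) : ED.PSA_stmt :=
  ED.PSA ED.PC2_e ED.SPK_e (ED.TCH_e hCOP hBTP hTSG) hBTP HY.VKB_y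
theorem ED.PSV_e (hCOP : DH.COP_stmt) (hBTP : DH.BTP_stmt) (hTSG : DH.TSG_stmt) : ED.PSV_stmt :=
  ED.PSV ED.VT_e (ED.TCH_e hCOP hBTP hTSG) HY.VKB_y
theorem ED.PS_e (hCOP : DH.COP_stmt) (hBTP : DH.BTP_stmt) (hTSG : DH.TSG_stmt) : ED.PS_stmt :=
  ED.PS (ED.PSS_e hCOP hBTP hTSG) (ED.PSA_e hCOP hBTP hTSG) (ED.PSV_e hCOP hBTP hTSG)
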